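import Pool.Agent.helper33.SP.SpecC1

/-!
# SP, UI3: colour symmetry of the four arm event
-/

namespace TP

open DP MeasureTheory

theorem UI3_conn (c : V → Bool) (R : Set V) : Conn (fl c) true R = Conn c false R := by
  have : {w | w ∈ R ∧ fl c w = true} = {w | w ∈ R ∧ c w = false} := by
    ext w
    simp [fl]
  unfold Conn
  rw [this]

theorem UI3 (hTC : DP.TC_stmt) : UI3_stmt := by
  intro c x m n hx hm hmn
  have h : four (fl c) x m n ↔ twoCl c false x m n := by
    unfold four twoCl
    simp only [UI3_conn]
  rw [h]
  exact hTC c x m n hx hm hmn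

end TP
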