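import Pool.Agent.helper33.SP.SpecC2S

/-!
# Project sp, module VA11: only the part without blocks contributes
-/

namespace TP

open DP MeasureTheory

theorem VA11_op (Φ : ℝ → ℝ → ℝ) {g h : (V → Bool) → ℝ} (hg : FinR g) (hh : FinR h) :
    FinR fun b => Φ (g b) (h b) := by
  classical
  obtain ⟨A, hA⟩ := hg
  obtain ⟨B, hB⟩ := hh
  refine ⟨A ∪ B, fun b b' hbb => ?_⟩
  show Φ (g b) (h b) = Φ (g b') (h b')
  rw [hA b b' fun v hv => hbb v (by simp only [Finset.coe_union]; exact Or.inl hv),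
    hB b b' fun v hv => hbb v (by simp only [Finset.coe_union]; exact Or.inr hv)]

theorem VA11_const (r : ℝ) : FinR (fun _ => r) := ⟨∅, fun _ _ _ => rfl⟩

theorem VA11_finsum {ι : Type*} (s : Finset ι) (w : ι → (V → Bool) → ℝ)
    (h : ∀ i ∈ s, FinR (w i)) : FinR fun b => ∑ i ∈ s, w i b := by
  classical
  induction s using Finset.induction_on with
  | empty => simpa using VA11_const 0
  | insert a s ha ih =>
    have h1 := VA11_op (fun u v => u + v) (h a (Finset.mem_insert_self a s))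
      (ih fun i hi => h i (Finset.mem_insert_of_mem hi))
    have e : (fun b => ∑ i ∈ insert a s, w i b) = fun b => w a b + ∑ i ∈ s, w i b := by
      funext b
      rw [Finset.sum_insert ha]
    rw [e]
    exact h1

theorem VA11_finprod {ι : Type*} (s : Finset ι) (w : ι → (V → Bool) → ℝ)
    (h : ∀ i ∈ s, FinR (w i)) : FinR fun b => ∏ i ∈ s, w i b := by
  classical
  induction s using Finset.induction_on with
  | empty => simpa using VA11_const 1
  | insert a s ha ih =>
    have h1 := VA11_op (fun u v => u * v) (h a (Finset.mem_insert_self a s))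
      (ih fun i hi => h i (Finset.mem_insert_of_mem hi))
    have e : (fun b => ∏ i ∈ insert a s, w i b) = fun b => w a b * ∏ i ∈ s, w i b := by
      funext b
      rw [Finset.prod_insert ha]
    rw [e]
    exact h1

theorem VA11_dl_add (h5 : UJ5_stmt) (U : Set V) {g h : (V → Bool) → ℝ} (hg : FinR g)
    (hh : FinR h) : dl U (fun b => g b + h b) = fun b => dl U g b + dl U h b := by
  funext b
  unfold dl
  rw [(h5.2.2.1 U g h hg hh).1 b]
  ring

theorem VA11_L_add (h5 : UJ5_stmt) (W U1 U2 : Set V) {g h : (V → Bool) → ℝ} (hg : FinR g)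
    (hh : FinR h) (b : V → Bool) :
    av W (dl U1 (dl U2 (fun b => g b + h b))) b =
      av W (dl U1 (dl U2 g)) b + av W (dl U1 (dl U2 h)) b := by
  have f1 := (h5.1 U2 g hg).2.1
  have f2 := (h5.1 U2 h hh).2.1
  have f3 := (h5.1 U1 _ f1).2.1
  have f4 := (h5.1 U1 _ f2).2.1
  rw [VA11_dl_add h5 U2 hg hh, VA11_dl_add h5 U1 f1 f2]
  exact (h5.2.2.1 W _ _ f3 f4).1 b

theorem VA11_L_zero (W U1 U2 : Set V) (b : V → Bool) :
    av W (dl U1 (dl U2 (fun _ => (0 : ℝ)))) b = 0 := by
  have h1 : ∀ U : Set V, dl U (fun _ => (0 : ℝ)) = fun _ => (0 : ℝ) := by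
    intro U
    funext b
    simp [dl, av]
  rw [h1, h1]
  simp [av]

theorem VA11_L_sum (h5 : UJ5_stmt) (W U1 U2 : Set V) {ι : Type*} (s : Finset ι)
    (w : ι → (V → Bool) → ℝ) (h : ∀ i ∈ s, FinR (w i)) (b : V → Bool) :
    av W (dl U1 (dl U2 (fun b => ∑ i ∈ s, w i b))) b =
      ∑ i ∈ s, av W (dl U1 (dl U2 (w i))) b := by
  classical
  induction s using Finset.induction_on with
  | empty => simpa using VA11_L_zero W U1 U2 b
  | insert a s ha ih =>
    have e : (fun b => ∑ i ∈ insert a s, w i b) = fun b => w a b + ∑ i ∈ s, w i b := by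
      funext b
      rw [Finset.sum_insert ha]
    rw [e, VA11_L_add h5 W U1 U2 (h a (Finset.mem_insert_self a s))
      (VA11_finsum s w fun i hi => h i (Finset.mem_insert_of_mem hi)),
      ih fun i hi => h i (Finset.mem_insert_of_mem hi), Finset.sum_insert ha]

theorem VA11 (h4 : UJ4_stmt) (h5 : UJ5_stmt) (hv5 : VA5_stmt) (hv8 : VA8_stmt)
    (hv10 : VA10_stmt) : VA11_stmt := by
  intro i N t p m s g h J x y hG b
  have hy : (y.1 + y.2) % 2 = 0 := by
    have hx := hG.even
    have hs := hG.hs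
    have h2 : ((2 : ℤ) ^ (p + m + s)) % 2 = 0 := by
      obtain ⟨k, hk⟩ : ∃ k, p + m + s = k + 1 := ⟨p + m + s - 1, by omega⟩
      rw [hk, pow_succ]
      omega
    rcases hG.y_eq with rfl | rfl
    · show (x.1 + 2 ^ (p + m + s) + x.2) % 2 = 0
      omega
    · show (x.1 + (x.2 + 2 ^ (p + m + s))) % 2 = 0
      omega
  have hwf : ∀ z : V, (z.1 + z.2) % 2 = 0 → ∀ P l, FinR (wf z g h P l) := by
    intro z hz P l
    exact (hv5 z (zx g h P l) h g hz (by unfold zx; omega) hG.hg hG.hh).2.2.2.2.2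
  have hf : FinR (pmf (Fc i)) := by
    refine ⟨VV i, fun b b' hbb => ?_⟩
    have hiff := (h4 i).1 b b' hbb
    unfold pmf Set.indicator
    by_cases hb : b ∈ Fc i
    · rw [if_pos hb, if_pos (hiff.1 hb)]
      rfl
    · rw [if_neg hb, if_neg fun hb' => hb (hiff.2 hb')]
  have hNf : ∀ z : V, (z.1 + z.2) % 2 = 0 → ∀ P, FinR (Nf z g h P J) := fun z hz P =>
    VA11_finprod _ (fun l b => 1 - wf z g h P l b) fun l _ =>
      VA11_op (fun u v => u - v) (VA11_const 1) (hwf z hz P l)
  have hRf : ∀ z : V, (z.1 + z.2) % 2 = 0 → ∀ P j, FinR (Rf z g h P J j) := fun z hz P j =>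
    VA11_op (fun u v => u * v) (hwf z hz P j)
      (VA11_finprod _ (fun l b => 1 - wf z g h P l b) fun l _ =>
        VA11_op (fun u v => u - v) (VA11_const 1) (hwf z hz P l))
  have hR3 : ∀ j k l, FinR fun b =>
      R3 x y g h (p + 3) (p + m + 3 * s) J j k l b * pmf (Fc i) b := fun j k l =>
    VA11_op (fun u v => u * v)
      (VA11_op (fun u v => u * v)
        (VA11_op (fun u v => u * v) (hRf x hG.even (p + 3) j) (hRf y hy (p + 3) k))
        (hRf x hG.even (p + m + 3 * s) l)) hf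
  have hQ3 : FinR fun b => Q3 x y g h (p + 3) (p + m + 3 * s) J b * pmf (Fc i) b := by
    have h1 : ∀ z : V, (z.1 + z.2) % 2 = 0 → ∀ P, FinR fun b => 1 - Nf z g h P J b :=
      fun z hz P => VA11_op (fun u v => u - v) (VA11_const 1) (hNf z hz P)
    exact VA11_op (fun u v => u * v) (VA11_op (fun u v => u - v) (VA11_const 1)
      (VA11_op (fun u v => u * v)
        (VA11_op (fun u v => u * v) (h1 x hG.even (p + 3)) (h1 y hy (p + 3)))
        (h1 x hG.even (p + m + 3 * s)))) hf
  have e : pmf (Fc i) = fun b => Q3 x y g h (p + 3) (p + m + 3 * s) J b * pmf (Fc i) b +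
      ∑ j ∈ Finset.range J, ∑ k ∈ Finset.range J, ∑ l ∈ Finset.range J,
        R3 x y g h (p + 3) (p + m + 3 * s) J j k l b * pmf (Fc i) b := by
    funext b
    simp only [← Finset.sum_mul]
    rw [(hv8 x y g h (p + 3) (p + m + 3 * s) J b).2.1]
    ring
  conv_lhs => rw [e]
  rw [VA11_L_add h5 _ _ _ hQ3 (VA11_finsum _ _ fun j _ => VA11_finsum _ _ fun k _ =>
    VA11_finsum _ _ fun l _ => hR3 j k l)]
  rw [VA11_L_sum h5 _ _ _ _ _ (fun j _ => VA11_finsum _ _ fun k _ =>
    VA11_finsum _ _ fun l _ => hR3 j k l)]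
  rw [Finset.sum_eq_zero, add_zero]
  intro j hj
  rw [VA11_L_sum h5 _ _ _ _ _ (fun k _ => VA11_finsum _ _ fun l _ => hR3 j k l)]
  refine Finset.sum_eq_zero fun k hk => ?_
  rw [VA11_L_sum h5 _ _ _ _ _ (fun l _ => hR3 j k l)]
  refine Finset.sum_eq_zero fun l hl => ?_
  exact hv10 i N t p m s g h J x y hG j (Finset.mem_range.1 hj) k (Finset.mem_range.1 hk) l
    (Finset.mem_range.1 hl) b

end TP
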