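import Pool.Agent.helper49.SP.SpecAS

/-!
# SP, part AS: P1
-/

namespace TP

open DP MeasureTheory

theorem ASP1_list (Q : ℕ → Form → Prop) (E : ℕ) : ∀ Fs : List Form,
    (∀ φ ∈ Fs, ¬ ∀ i₀ : ℕ, ∃ i ≥ i₀, E ≤ i ∧ Q i φ) →
    ∃ N : ℕ, ∀ i ≥ N, E ≤ i → ∀ φ ∈ Fs, ¬ Q i φ
  | [], _ => ⟨0, fun i _ _ φ hφ => absurd hφ (by simp)⟩
  | ψ :: L, h => by
    obtain ⟨N, hN⟩ := ASP1_list Q E L fun φ hφ => h φ (List.mem_cons_of_mem _ hφ)
    have h1 := h ψ List.mem_cons_self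
    push Not at h1
    obtain ⟨M, hM⟩ := h1
    refine ⟨max N M, fun i hi hE φ hφ => ?_⟩
    rcases List.mem_cons.1 hφ with rfl | hφ
    · exact hM i (le_trans (le_max_right _ _) hi) hE
    · exact hN i (le_trans (le_max_left _ _) hi) hE φ hφ

theorem ASP1 : P1_stmt := by
  intro h I hI η hη
  obtain ⟨E, i₁, Fs, hF⟩ := h η hη
  by_contra hcon
  push Not at hcon
  obtain ⟨N, hN⟩ := ASP1_list (fun i φ => i ∈ I ∧ 1 - η ≤ PS i (fun X => satC (2 ^ (i - E)) X φ) ∧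
      PPv i (fun X => satO (2 ^ (i - E)) X φ) ≤ η) E Fs (by
    intro φ _ h2
    obtain ⟨i₀, h3⟩ := hcon E φ
    obtain ⟨i, hi, hE, hiI, h4, h5⟩ := h2 i₀
    exact absurd h5 (not_le.2 (h3 i hi hiI hE h4)))
  obtain ⟨i, hiI, hi⟩ := hI.exists_gt (max i₁ (max N E))
  obtain ⟨φ, hφ, h6⟩ := hF i (le_trans (le_max_left _ _) hi.le)
  exact hN i (le_trans (le_trans (le_max_left _ _) (le_max_right _ _)) hi.le)
    (le_trans (le_trans (le_max_right _ _) (le_max_right _ _)) hi.le) φ hφ ⟨hiI, h6⟩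

end TP
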