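import Pool.Agent.helper3.SP.SpecPP

namespace TP

open DP MeasureTheory

lemma PP15_sd {u v : V} {n : ℕ} (h : sd u v < n) :
    (-(n : ℤ) < v.1 - u.1 ∧ v.1 - u.1 < n) ∧ -(n : ℤ) < v.2 - u.2 ∧ v.2 - u.2 < n := by
  unfold sd at h
  rw [max_lt_iff] at h
  omega

lemma PP15_reg {w : Wire} {v : V} (h : v ∈ regL w.all) :
    (∃ s ∈ w.sg, ∃ t ≤ s.2.2, sd (zpt s.1 (2 * t * w.l) s.2.1) v < 3 * w.l) ∨
      ∃ q ∈ w.bg, sd q.1 v < 3 * q.2 := by
  obtain ⟨q, hq, hv⟩ := h
  rw [Wire.all, List.mem_append, List.mem_map] at hq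
  rcases hq with ⟨g, hg, rfl⟩ | hq
  · left
    rw [Wire.cel, List.mem_flatMap] at hg
    obtain ⟨s, hs, hg⟩ := hg
    rw [scel, List.mem_map] at hg
    obtain ⟨t, ht, rfl⟩ := hg
    exact ⟨s, hs, t, by rw [List.mem_range] at ht; omega, hv⟩
  · exact Or.inr ⟨q, hq, hv⟩

lemma PP15_le {t k : ℕ} (ℓ : ℕ) (h : t ≤ k) :
    (0 : ℤ) ≤ (t : ℤ) * ℓ ∧ (t : ℤ) * ℓ ≤ (k : ℤ) * ℓ :=
  ⟨by positivity, mul_le_mul_of_nonneg_right (by exact_mod_cast h) (by positivity)⟩

theorem PP15 : PP15_stmt := by
  intro x ℓ S e hℓ hS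
  have hℓ' : (1 : ℤ) ≤ ℓ := by exact_mod_cast hℓ
  constructor
  · intro v hv
    rcases PP15_reg hv with ⟨s, hs, t, ht, h⟩ | ⟨q, hq, h⟩
    · left
      simp only [hubW, List.mem_singleton] at hs
      subst hs
      simp only [hubW] at h ht
      obtain ⟨h1, h2⟩ := PP15_le ℓ ht
      have h3 := PP15_sd h
      cases e
      · simp only [zpt, due, sge] at h3 ⊢
        simp at h3 ⊢
        push_cast at h2
        rw [abs_lt]
        refine ⟨⟨?_, ?_⟩, ?_, ?_⟩ <;> linarith
      · simp only [zpt, due, sge] at h3 ⊢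
        simp at h3 ⊢
        push_cast at h2
        rw [abs_lt]
        refine ⟨⟨?_, ?_⟩, ?_, ?_⟩ <;> linarith
    · right
      simp only [hubW, List.mem_singleton] at hq
      subst hq
      have h3 := PP15_sd h
      cases e
      · simp only [sge] at h3 ⊢
        simp at h3 ⊢
        rw [abs_lt]
        refine ⟨⟨?_, ?_⟩, ?_, ?_⟩ <;> linarith
      · simp only [sge] at h3 ⊢
        simp at h3 ⊢
        rw [abs_lt]
        refine ⟨⟨?_, ?_⟩, ?_, ?_⟩ <;> linarith
  · intro v hv
    have hS3 : 1 ≤ S ^ 3 := Nat.one_le_pow _ _ (by omega)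
    rcases PP15_reg hv with ⟨s, hs, t, ht, h⟩ | ⟨q, hq, h⟩
    · simp only [midW, List.mem_cons, List.not_mem_nil, or_false] at hs
      rcases hs with rfl | rfl | rfl
      · right; right; left
        simp only [midW] at h ht
        obtain ⟨h1, h2⟩ := PP15_le ℓ ht
        have h3 := PP15_sd h
        have h4 : ((16 * S - 16 : ℕ) : ℤ) = 16 * S - 16 := by
          rw [Nat.cast_sub (by omega)]
          push_cast
          ring
        rw [h4] at h2
        cases e
        · simp only [zpt, due, sge] at h3 ⊢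
          simp at h3 ⊢
          refine ⟨?_, ?_, ?_, ?_⟩ <;> linarith
        · simp only [zpt, due, sge] at h3 ⊢
          simp at h3 ⊢
          refine ⟨?_, ?_, ?_, ?_⟩ <;> linarith
      · right; left
        simp only [midW] at h ht
        obtain ⟨h1, h2⟩ := PP15_le ℓ ht
        have h3 := PP15_sd h
        cases e
        · simp only [zpt, sge] at h3 ⊢
          simp at h3 ⊢
          push_cast at h2
          refine ⟨?_, ?_, ?_, ?_⟩ <;> linarith
        · simp only [zpt, sge] at h3 ⊢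
          simp at h3 ⊢
          push_cast at h2
          refine ⟨?_, ?_, ?_, ?_⟩ <;> linarith
      · left
        simp only [midW] at h ht
        obtain ⟨h1, h2⟩ := PP15_le ℓ ht
        have h3 := PP15_sd h
        have h4 : ((16 * (S ^ 3 - 1) : ℕ) : ℤ) = 16 * (S ^ 3 - 1) := by
          rw [Nat.cast_mul, Nat.cast_sub hS3]
          push_cast
          ring
        rw [h4] at h2
        cases e
        · simp only [zpt, due, sge] at h3 ⊢
          simp at h3 ⊢
          rw [abs_lt]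
          refine ⟨⟨?_, ?_⟩, ?_, ?_⟩ <;> linarith
        · simp only [zpt, due, sge] at h3 ⊢
          simp at h3 ⊢
          rw [abs_lt]
          refine ⟨⟨?_, ?_⟩, ?_, ?_⟩ <;> linarith
    · right; right; right
      simp only [midW, List.mem_singleton] at hq
      subst hq
      have h3 := PP15_sd h
      cases e
      · simp only [sge] at h3 ⊢
        simp at h3 ⊢
        rw [abs_lt]
        refine ⟨⟨?_, ?_⟩, ?_, ?_⟩ <;> linarith
      · simp only [sge] at h3 ⊢
        simp at h3 ⊢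
        rw [abs_lt]
        refine ⟨⟨?_, ?_⟩, ?_, ?_⟩ <;> linarith

end TP
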