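import Pool.Agent.helper2.SP.SpecTA

namespace TP.TA

open DP MeasureTheory

/-- lift of `v` in `[B, B + 8 N)` (where `B` is a position). -/
noncomputable def TA9_l (x : V) (N : ℕ) (B : ℤ) (v : V) : ℤ :=
  if B ≤ pos x N v then pos x N v else pos x N v + 8 * N

lemma TA9_Lf (x : V) (N : ℕ) (B : ℤ) (v : V) (hv : v ∈ bd x N) : Lf x N v (TA9_l x N B v) := by
  refine ⟨hv, ?_⟩
  unfold TA9_l
  split_ifs
  · exact ⟨0, by ring⟩
  · exact ⟨1, by ring⟩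

lemma TA9_min (S : Set V) (f : V → ℤ) (lo : ℤ) (hS : S.Nonempty) (h : ∀ v ∈ S, lo ≤ f v) :
    ∃ z ∈ S, ∀ v ∈ S, f z ≤ f v := by
  obtain ⟨v₀, hv₀⟩ := hS
  have hne : ∃ k : ℕ, ∃ v ∈ S, (f v - lo).toNat = k := ⟨_, v₀, hv₀, rfl⟩
  classical
  obtain ⟨z, hz, hk⟩ := Nat.find_spec hne
  refine ⟨z, hz, fun v hv => ?_⟩
  have h1 := Nat.find_min' hne ⟨v, hv, rfl⟩
  have h2 := h z hz
  have h3 := h v hv
  omega

lemma TA9_max (S : Set V) (f : V → ℤ) (hi : ℤ) (hS : S.Nonempty) (h : ∀ v ∈ S, f v ≤ hi) :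
    ∃ z ∈ S, ∀ v ∈ S, f v ≤ f z := by
  obtain ⟨z, hz, hk⟩ := TA9_min S (fun v => - f v) (-hi) hS (fun v hv => by
    have := h v hv
    omega)
  exact ⟨z, hz, fun v hv => by have := hk v hv; omega⟩

theorem TA9 (hPO : PO_stmt) : TA9_stmt := by
  intro x N S S' hN hS hS' hne hne' hdis halt
  obtain ⟨hP1, hP2, -, -⟩ := hPO
  obtain ⟨b, hb⟩ := hne'
  set B := pos x N b with hB
  have hBb := hP1 x N b hN (hS' hb)
  have hnb : ∀ v ∈ S, pos x N v ≠ B := by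
    intro v hv h
    have := hP2 x N v b hN (hS hv) (hS' hb) h
    exact Set.disjoint_left.1 hdis hv (this ▸ hb)
  have hl : ∀ v ∈ S, B < TA9_l x N B v ∧ TA9_l x N B v < B + 8 * N := by
    intro v hv
    have h1 := hP1 x N v hN (hS hv)
    have h2 := hnb v hv
    unfold TA9_l
    split_ifs <;> omega
  have hl' : ∀ v ∈ S', B ≤ TA9_l x N B v ∧ TA9_l x N B v < B + 8 * N := by
    intro v hv
    have h1 := hP1 x N v hN (hS' hv)
    unfold TA9_l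
    split_ifs <;> omega
  obtain ⟨z₅, hz₅, h₅⟩ := TA9_min S (TA9_l x N B) B hne (fun v hv => (hl v hv).1.le)
  obtain ⟨z₀, hz₀, h₀⟩ := TA9_max S (TA9_l x N B) (B + 8 * N) hne (fun v hv => (hl v hv).2.le)
  set P₅ := TA9_l x N B z₅ with hP5
  set P₀ := TA9_l x N B z₀ with hP0
  have hkey : ∀ w ∈ S', ¬ (P₅ ≤ TA9_l x N B w ∧ TA9_l x N B w ≤ P₀) := by
    rintro w hw ⟨h1, h2⟩
    have hw0 : w ≠ z₀ := fun h => Set.disjoint_left.1 hdis hz₀ (h ▸ hw)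
    have hw5 : w ≠ z₅ := fun h => Set.disjoint_left.1 hdis hz₅ (h ▸ hw)
    have hb0 : z₀ ≠ b := fun h => Set.disjoint_left.1 hdis hz₀ (h ▸ hb)
    have hb5 : z₅ ≠ b := fun h => Set.disjoint_left.1 hdis hz₅ (h ▸ hb)
    have p0 := hP1 x N z₀ hN (hS hz₀)
    have p5 := hP1 x N z₅ hN (hS hz₅)
    have pw := hP1 x N w hN (hS' hw)
    have q0 : pos x N w ≠ pos x N z₀ := fun h => hw0 (hP2 x N w z₀ hN (hS' hw) (hS hz₀) h)
    have q5 : pos x N w ≠ pos x N z₅ := fun h => hw5 (hP2 x N w z₅ hN (hS' hw) (hS hz₅) h)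
    have l0 := hl z₀ hz₀
    have l5 := hl z₅ hz₅
    rw [← hP0] at l0
    rw [← hP5] at l5
    have hwb : w ≠ b := by
      rintro rfl
      have : TA9_l x N B w = B := by simp [TA9_l, hB]
      omega
    have h05 : z₅ ≠ z₀ := by
      intro h
      have h3 : P₅ = P₀ := by rw [hP5, hP0, h]
      have h4 : TA9_l x N B w = P₀ := by omega
      rw [hP0] at h4
      unfold TA9_l at h4
      split_ifs at h4 <;> omega
    refine halt z₅ hz₅ w hw z₀ hz₀ b hb ⟨⟨hS hz₅, hS' hw, hS hz₀, hS' hb⟩, ?_, Or.inl ⟨?_, ?_⟩⟩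
    · simp [hb0, hb5, hwb, h05, hw5.symm, hw0]
    · refine ⟨hS hz₅, hS hz₀, hS' hw, ?_⟩
      rw [hP5] at h1
      rw [hP0] at h2
      unfold TA9_l at h1 h2
      split_ifs at h1 h2 ⊢ <;> omega
    · refine ⟨hS hz₀, hS hz₅, hS' hb, ?_⟩
      rw [hP5] at h1
      rw [hP0] at h2
      unfold TA9_l at h1 h2
      split_ifs at h1 h2 ⊢ <;> omega
  set m : V → ℤ := fun w => if P₀ < TA9_l x N B w then TA9_l x N B w else
    TA9_l x N B w + 8 * N with hm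
  have l0 := hl z₀ hz₀
  have l5 := hl z₅ hz₅
  rw [← hP0] at l0
  rw [← hP5] at l5
  have hmb : ∀ w ∈ S', P₀ < m w ∧ m w < P₅ + 8 * N := by
    intro w hw
    have h1 := hkey w hw
    have h2 := hl' w hw
    simp only [hm]
    split_ifs <;> omega
  have hmL : ∀ w ∈ S', Lf x N w (m w) := by
    intro w hw
    obtain ⟨h1, k, hk⟩ := TA9_Lf x N B w (hS' hw)
    simp only [hm]
    split_ifs
    · exact ⟨h1, k, hk⟩
    · exact ⟨h1, k + 1, by rw [hk]; ring⟩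
  obtain ⟨z₂, hz₂, h₂⟩ := TA9_min S' m P₀ ⟨b, hb⟩ (fun v hv => (hmb v hv).1.le)
  obtain ⟨z₃, hz₃, h₃⟩ := TA9_max S' m (P₅ + 8 * N) ⟨b, hb⟩ (fun v hv => (hmb v hv).2.le)
  refine ⟨z₀, z₅, z₂, z₃, P₀, P₅, m z₂, m z₃, hz₀, hz₅, hz₂, hz₃, TA9_Lf x N B z₀ (hS hz₀),
    TA9_Lf x N B z₅ (hS hz₅), hmL z₂ hz₂, hmL z₃ hz₃, h₅ z₀ hz₀, (hmb z₂ hz₂).1, h₂ z₃ hz₃,
    (hmb z₃ hz₃).2, ?_, ?_⟩
  · intro v hv
    exact ⟨_, TA9_Lf x N B v (hS hv), h₅ v hv, h₀ v hv⟩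
  · intro v hv
    exact ⟨_, hmL v hv, h₂ v hv, h₃ v hv⟩

end TP.TA
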