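import Pool.Agent.helper31.SP.SpecTL

/-!
# SP, TL5: pivotal sets of the square give four arms
-/

namespace TP

open DP MeasureTheory

theorem TL5 (hPVC : PVC_stmt) : TL5_stmt := by
  rintro i b B y r R hB hr hbox ⟨b', b'', hb, hF', hF''⟩
  obtain ⟨u, v, hu, hv, hc⟩ := hF'
  have h1 : ((y.1 - R, y.2) : V) ∈ rect 1 (2 * 2 ^ i) 0 (hh (2 ^ i)) := by
    apply hbox
    show sd y (y.1 - R, y.2) ≤ R
    unfold sd
    simp
  have h2 : ((y.1 + R, y.2) : V) ∈ rect 1 (2 * 2 ^ i) 0 (hh (2 ^ i)) := by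
    apply hbox
    show sd y (y.1 + R, y.2) ≤ R
    unfold sd
    simp
  have h3 : (1 : ℤ) ≤ y.1 - R := h1.1
  have h4 : y.1 + R ≤ 2 * 2 ^ i := h2.2.1
  refine hPVC b b' b'' B _ true y r R u v hB hr hbox ?_ ?_ (fun w hw => hb w hw) hc ?_
  · unfold sd
    rw [le_max_iff]
    left
    omega
  · unfold sd
    rw [le_max_iff]
    left
    omega
  · intro h
    exact hF'' ⟨u, v, hu, hv, h⟩

end TP
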